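import Mathlib

/-!
Weak limits of operators along ultrafilters and square roots of positive invertible operators.
-/

set_option autoImplicit false

open Filter Topology
open scoped InnerProductSpace ComplexConjugate

noncomputable section

namespace Pool.Agent.Y324.CV

variable {H : Type} [NormedAddCommGroup H] [InnerProductSpace ℂ H] [CompleteSpace H]

theorem wlim {I : Type} (U : Ultrafilter I) (T : I → H →L[ℂ] H) (r : ℝ) (hr : 0 ≤ r)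
    (hT : ∀ i, ‖T i‖ ≤ r) :
    ∃ E : H →L[ℂ] H, ∀ ξ η : H, Tendsto (fun i => ⟪η, T i ξ⟫_ℂ) U (𝓝 ⟪η, E ξ⟫_ℂ) := by
  have hb : ∀ (η ξ : H) (i : I), ‖⟪η, T i ξ⟫_ℂ‖ ≤ r * ‖η‖ * ‖ξ‖ := by
    intro η ξ i
    calc ‖⟪η, T i ξ⟫_ℂ‖ ≤ ‖η‖ * ‖T i ξ‖ := norm_inner_le_norm _ _
      _ ≤ ‖η‖ * (r * ‖ξ‖) := by
          gcongr
          exact (T i).le_of_opNorm_le (hT i) ξ
      _ = r * ‖η‖ * ‖ξ‖ := by ring
  have hex : ∀ η ξ : H, ∃ z : ℂ, ‖z‖ ≤ r * ‖η‖ * ‖ξ‖ ∧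
      Tendsto (fun i => ⟪η, T i ξ⟫_ℂ) U (𝓝 z) := by
    intro η ξ
    obtain ⟨z, hz, hl⟩ := (isCompact_closedBall (0 : ℂ) (r * ‖η‖ * ‖ξ‖)).ultrafilter_le_nhds
      (U.map fun i => ⟪η, T i ξ⟫_ℂ) (by
        rw [Ultrafilter.coe_map, le_principal_iff, mem_map]
        exact univ_mem' fun i => by
          rw [Set.mem_preimage, mem_closedBall_zero_iff]
          exact hb η ξ i)
    exact ⟨z, mem_closedBall_zero_iff.mp hz, hl⟩
  choose B hB1 hB2 using hex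
  have huniq : ∀ (η ξ : H) (z : ℂ), Tendsto (fun i => ⟪η, T i ξ⟫_ℂ) U (𝓝 z) →
      B η ξ = z := fun η ξ z h => tendsto_nhds_unique (hB2 η ξ) h
  let f : H →ₗ⋆[ℂ] H →ₗ[ℂ] ℂ := LinearMap.mk₂'ₛₗ (starRingEnd ℂ) (RingHom.id ℂ) B
    (fun η η' ξ => huniq _ _ _ (by
      simpa only [inner_add_left] using (hB2 η ξ).add (hB2 η' ξ)))
    (fun c η ξ => huniq _ _ _ (by
      simpa only [inner_smul_left, smul_eq_mul] using (hB2 η ξ).const_mul (conj c)))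
    (fun η ξ ξ' => huniq _ _ _ (by
      simpa only [map_add, inner_add_right] using (hB2 η ξ).add (hB2 η ξ')))
    (fun c η ξ => huniq _ _ _ (by
      simpa only [map_smul, inner_smul_right, smul_eq_mul, RingHom.id_apply] using
        (hB2 η ξ).const_mul c))
  have hf : ∀ η ξ, f η ξ = B η ξ := fun η ξ => rfl
  let g : H →L⋆[ℂ] H →L[ℂ] ℂ := LinearMap.mkContinuous₂ f r (fun η ξ => by
    rw [hf]
    exact hB1 η ξ)
  have hg : ∀ η ξ, g η ξ = B η ξ := fun η ξ => rfl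
  let F : H →L[ℂ] H := InnerProductSpace.continuousLinearMapOfBilin g
  have hF : ∀ η ξ, ⟪F η, ξ⟫_ℂ = B η ξ := fun η ξ =>
    InnerProductSpace.continuousLinearMapOfBilin_apply g η ξ
  refine ⟨ContinuousLinearMap.adjoint F, fun ξ η => ?_⟩
  rw [ContinuousLinearMap.adjoint_inner_right, hF]
  exact hB2 η ξ

theorem wlim' {I : Type} (U : Ultrafilter I) (T : I → H →L[ℂ] H) (r : ℝ) (hr : 0 ≤ r)
    (hT : ∀ᶠ i in (U : Filter I), ‖T i‖ ≤ r) :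
    ∃ E : H →L[ℂ] H, ∀ ξ η : H, Tendsto (fun i => ⟪η, T i ξ⟫_ℂ) U (𝓝 ⟪η, E ξ⟫_ℂ) := by
  classical
  obtain ⟨E, hE⟩ := wlim U (fun i => if ‖T i‖ ≤ r then T i else 0) r hr (fun i => by
    split_ifs with h
    · exact h
    · simpa using hr)
  refine ⟨E, fun ξ η => (hE ξ η).congr' ?_⟩
  filter_upwards [hT] with i hi
  rw [if_pos hi]

open scoped ComplexOrder

/-- square root of a positive invertible operator -/
theorem exists_root {Q : H →L[ℂ] H} {m M : ℝ} (hm : 0 < m) (hM : 0 ≤ M)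
    (him : ∀ ξ : H, (⟪ξ, Q ξ⟫_ℂ).im = 0)
    (hlow : ∀ ξ : H, m * ‖ξ‖ ^ 2 ≤ (⟪ξ, Q ξ⟫_ℂ).re)
    (hup : ∀ ξ : H, (⟪ξ, Q ξ⟫_ℂ).re ≤ M * ‖ξ‖ ^ 2) :
    ∃ R : (H →L[ℂ] H)ˣ, star (R : H →L[ℂ] H) = R ∧ (R : H →L[ℂ] H) * R = Q ∧
      ‖(R : H →L[ℂ] H)‖ ^ 2 ≤ M ∧ ‖((R⁻¹ : (H →L[ℂ] H)ˣ) : H →L[ℂ] H)‖ ^ 2 ≤ m⁻¹ ∧
      ∀ X : H →L[ℂ] H, Commute Q X → Commute (R : H →L[ℂ] H) X := by
  have hpos : ∀ c : ℝ, c ≤ m → 0 ≤ Q - (c : ℂ) • (1 : H →L[ℂ] H) := by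
    intro c hc
    rw [ContinuousLinearMap.nonneg_iff_isPositive, ContinuousLinearMap.isPositive_iff_complex]
    intro ξ
    have h1 : ⟪(Q - (c : ℂ) • (1 : H →L[ℂ] H)) ξ, ξ⟫_ℂ = ((⟪ξ, Q ξ⟫_ℂ).re - c * ‖ξ‖ ^ 2 : ℝ) := by
      rw [← inner_conj_symm]
      have h2 : ⟪ξ, (Q - (c : ℂ) • (1 : H →L[ℂ] H)) ξ⟫_ℂ = ⟪ξ, Q ξ⟫_ℂ - c * ⟪ξ, ξ⟫_ℂ := by
        rw [ContinuousLinearMap.sub_apply, inner_sub_right, ContinuousLinearMap.smul_apply,
          ContinuousLinearMap.one_apply, inner_smul_right]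
      have h3 : ⟪ξ, Q ξ⟫_ℂ = ((⟪ξ, Q ξ⟫_ℂ).re : ℂ) := by
        apply Complex.ext
        · simp
        · simp [him ξ]
      rw [h2, inner_self_eq_norm_sq_to_K]
      rw [h3]
      apply Complex.ext
      · simp [← Complex.ofReal_pow]
      · simp [← Complex.ofReal_pow]
    rw [h1]
    constructor
    · simp only [RCLike.re_to_complex, Complex.ofReal_re]
    · have := hlow ξ
      have h4 : c * ‖ξ‖ ^ 2 ≤ m * ‖ξ‖ ^ 2 := by gcongr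
      simp only [RCLike.re_to_complex, Complex.ofReal_re]
      linarith
  have hQ0 : 0 ≤ Q := by
    have := hpos 0 hm.le
    simpa using this
  have hQm : (m : ℂ) • (1 : H →L[ℂ] H) ≤ Q := sub_nonneg.mp (hpos m le_rfl)
  have hRR : CFC.sqrt Q * CFC.sqrt Q = Q := CFC.sqrt_mul_sqrt_self Q hQ0
  have hR0 : 0 ≤ CFC.sqrt Q := CFC.sqrt_nonneg Q
  have hRs : star (CFC.sqrt Q) = CFC.sqrt Q := (IsSelfAdjoint.of_nonneg hR0).star_eq
  have hnorm : ∀ ξ : H, ‖CFC.sqrt Q ξ‖ ^ 2 = (⟪ξ, Q ξ⟫_ℂ).re := by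
    intro ξ
    have h1 : ⟪CFC.sqrt Q ξ, CFC.sqrt Q ξ⟫_ℂ = ⟪ξ, Q ξ⟫_ℂ := by
      calc ⟪CFC.sqrt Q ξ, CFC.sqrt Q ξ⟫_ℂ = ⟪ξ, (star (CFC.sqrt Q)) (CFC.sqrt Q ξ)⟫_ℂ :=
            (ContinuousLinearMap.adjoint_inner_right _ _ _).symm
        _ = ⟪ξ, (CFC.sqrt Q * CFC.sqrt Q) ξ⟫_ℂ := by rw [hRs]; rfl
        _ = ⟪ξ, Q ξ⟫_ℂ := by rw [hRR]
    rw [← h1, inner_self_eq_norm_sq_to_K]
    norm_cast
  have hQu : IsUnit Q := by
    by_cases hnt : Nontrivial H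
    · have hsp : IsStrictlyPositive ((m : ℂ) • (1 : H →L[ℂ] H)) := by
        have h1 : ((m : ℂ) • (1 : H →L[ℂ] H)) = algebraMap ℝ (H →L[ℂ] H) m := by
          rw [Algebra.algebraMap_eq_smul_one]
          ext ξ; simp
        rw [IsStrictlyPositive.iff_of_unital]
        constructor
        · rw [ContinuousLinearMap.nonneg_iff_isPositive, ContinuousLinearMap.isPositive_iff_complex]
          intro ξ
          have h1 : ⟪((m : ℂ) • (1 : H →L[ℂ] H)) ξ, ξ⟫_ℂ = ((m * ‖ξ‖ ^ 2 : ℝ) : ℂ) := by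
            rw [ContinuousLinearMap.smul_apply, ContinuousLinearMap.one_apply, inner_smul_left,
              inner_self_eq_norm_sq_to_K, Complex.conj_ofReal]
            push_cast
            rfl
          rw [h1]
          constructor
          · simp only [RCLike.re_to_complex, Complex.ofReal_re]
          · simp only [RCLike.re_to_complex, Complex.ofReal_re]
            positivity
        · rw [h1]
          exact (IsUnit.mk0 m hm.ne').map (algebraMap ℝ (H →L[ℂ] H))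
      exact CStarAlgebra.isUnit_of_le _ hQm hsp
    · rw [not_nontrivial_iff_subsingleton] at hnt
      exact isUnit_of_subsingleton Q
  have hRu : IsUnit (CFC.sqrt Q) := by
    rw [← hRR] at hQu
    exact (Commute.isUnit_mul_iff (Commute.refl _)).mp hQu |>.1
  obtain ⟨R, hR⟩ := hRu
  refine ⟨R, by rw [hR]; exact hRs, by rw [hR]; exact hRR, ?_, ?_, ?_⟩
  · have h1 : ‖(R : H →L[ℂ] H)‖ ≤ √M := by
      refine ContinuousLinearMap.opNorm_le_bound _ (Real.sqrt_nonneg _) fun ξ => ?_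
      rw [hR]
      have h2 := hnorm ξ
      have h3 := hup ξ
      rw [← h2] at h3
      have h4 := Real.sqrt_le_sqrt h3
      rwa [Real.sqrt_sq (norm_nonneg _), Real.sqrt_mul hM, Real.sqrt_sq (norm_nonneg _)] at h4
    calc ‖(R : H →L[ℂ] H)‖ ^ 2 ≤ √M ^ 2 := by gcongr
      _ = M := Real.sq_sqrt hM
  · have h1 : ‖((R⁻¹ : (H →L[ℂ] H)ˣ) : H →L[ℂ] H)‖ ≤ √(m⁻¹) := by
      refine ContinuousLinearMap.opNorm_le_bound _ (Real.sqrt_nonneg _) fun ξ => ?_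
      have h2 := hnorm (((R⁻¹ : (H →L[ℂ] H)ˣ) : H →L[ℂ] H) ξ)
      have h3 := hlow (((R⁻¹ : (H →L[ℂ] H)ˣ) : H →L[ℂ] H) ξ)
      rw [← h2, ← hR, ← ContinuousLinearMap.mul_apply, Units.mul_inv,
        ContinuousLinearMap.one_apply] at h3
      have h5 : ‖((R⁻¹ : (H →L[ℂ] H)ˣ) : H →L[ℂ] H) ξ‖ ^ 2 ≤ m⁻¹ * ‖ξ‖ ^ 2 := by
        rw [inv_mul_eq_div, le_div_iff₀ hm]
        linarith
      have h4 := Real.sqrt_le_sqrt h5
      rwa [Real.sqrt_sq (norm_nonneg _), Real.sqrt_mul (by positivity),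
        Real.sqrt_sq (norm_nonneg _)] at h4
    calc _ ≤ √(m⁻¹) ^ 2 := by gcongr
      _ = m⁻¹ := Real.sq_sqrt (by positivity)
  · intro X hX
    rw [hR, CFC.sqrt_eq_real_sqrt Q hQ0]
    exact (hX.cfcₙ (by rwa [(IsSelfAdjoint.of_nonneg hQ0).star_eq]) _)

end Pool.Agent.Y324.CV
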