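import Pool.Agent.Y324.CV.Core
import Pool.Agent.Y324.CV.Root
import Pool.Agent.H770R2.Kad.HAsm

/-!
Uniformly bounded covariant pairs of amenable C*-dynamical systems are similar to covariant
*-representations.
-/

set_option autoImplicit false

open Filter Topology
open scoped InnerProductSpace

noncomputable section

namespace Pool.Agent.Y324.CV

variable {G : Type} [Group G] {A : Type} [CStarAlgebra A]
  {H : Type} [NormedAddCommGroup H] [InnerProductSpace ℂ H] [CompleteSpace H]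
  {α : G →* (A ≃⋆ₐ[ℂ] A)} {u : A →⋆ₐ[ℂ] (H →L[ℂ] H)} {π : G →* (H →L[ℂ] H)ˣ}

/-- the form of an almost invariant, almost central net -/
structure Net (α : G →* (A ≃⋆ₐ[ℂ] A)) {ι : Type} (l : Filter ι) (θ : ι → G → A) : Prop where
  ne : l.NeBot
  fin : ∀ i, (θ i).support.Finite
  one : Tendsto (fun i => ‖Nf (θ i) - 1‖) l (𝓝 0)
  com : ∀ a, Tendsto (fun i => ‖Nf fun g => a * θ i g - θ i g * a‖) l (𝓝 0)
  inv : ∀ h, Tendsto (fun i => ‖Nf fun g => tr α h (θ i) g - θ i g‖) l (𝓝 0)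

theorem exists_Q {ι : Type} {l : Filter ι} {θ : ι → G → A} (hN : Net α l θ) {d : ℝ}
    (hd : ∀ g, ‖op π g‖ ≤ d) (hc : Cov α u π) :
    ∃ Q : H →L[ℂ] H, (∀ a, u a * Q = Q * u a) ∧ (∀ h, star (op π h) * Q * op π h = Q) ∧
      (∀ ξ : H, (⟪ξ, Q ξ⟫_ℂ).im = 0) ∧ (∀ ξ : H, ‖ξ‖ ^ 2 ≤ d ^ 2 * (⟪ξ, Q ξ⟫_ℂ).re) ∧
      (∀ ξ : H, (⟪ξ, Q ξ⟫_ℂ).re ≤ d ^ 2 * ‖ξ‖ ^ 2) := by
  have := hN.ne
  let U : Ultrafilter ι := Ultrafilter.of l
  have hU : (U : Filter ι) ≤ l := Ultrafilter.of_le l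
  have h1 : Tendsto (fun i => ‖Nf (θ i) - 1‖) U (𝓝 0) := hN.one.mono_left hU
  have hone : ‖(1 : A)‖ ≤ 1 := by
    by_cases hnt : Nontrivial A
    · exact (CStarRing.norm_one (E := A)).le
    · rw [not_nontrivial_iff_subsingleton] at hnt
      rw [Subsingleton.elim (1 : A) 0, norm_zero]
      exact zero_le_one
  have hle : ∀ i, ‖Nf (θ i)‖ ≤ 1 + ‖Nf (θ i) - 1‖ := by
    intro i
    calc ‖Nf (θ i)‖ = ‖(Nf (θ i) - 1) + 1‖ := by rw [sub_add_cancel]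
      _ ≤ ‖Nf (θ i) - 1‖ + ‖(1 : A)‖ := norm_add_le _ _
      _ ≤ _ := by linarith
  have h2 : ∀ᶠ i in (U : Filter ι), ‖Nf (θ i)‖ ≤ 2 := by
    have : ∀ᶠ i in (U : Filter ι), ‖Nf (θ i) - 1‖ < 1 := h1.eventually_lt_const one_pos
    filter_upwards [this] with i hi
    exact (hle i).trans (by linarith)
  have h3 : ∀ᶠ i in (U : Filter ι), ‖Qf u π (θ i) (θ i)‖ ≤ d ^ 2 * 2 := by
    filter_upwards [h2] with i hi
    refine (Qf_norm hd (hN.fin i) (hN.fin i)).trans ?_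
    rw [Real.mul_self_sqrt (norm_nonneg _)]
    gcongr
  obtain ⟨Q, hQ⟩ := wlim' U (fun i => Qf u π (θ i) (θ i)) (d ^ 2 * 2) (by positivity) h3
  -- if the norm of a net of operators tends to zero, so do the coefficients
  have hz : ∀ X : ι → (H →L[ℂ] H), Tendsto (fun i => ‖X i‖) U (𝓝 0) → ∀ ξ η : H,
      Tendsto (fun i => ⟪η, X i ξ⟫_ℂ) U (𝓝 0) := by
    intro X hX ξ η
    refine squeeze_zero_norm (a := fun i => ‖η‖ * (‖X i‖ * ‖ξ‖)) (fun i => ?_) ?_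
    · exact (norm_inner_le_norm _ _).trans (by gcongr; exact (X i).le_opNorm ξ)
    · have := (hX.mul_const ‖ξ‖).const_mul ‖η‖
      simpa using this
  have hsq : ∀ f : ι → ℝ, Tendsto f U (𝓝 0) → Tendsto (fun i => √(f i)) U (𝓝 0) := by
    intro f hf
    have := (Real.continuous_sqrt.tendsto 0).comp hf
    simpa [Function.comp_def] using this
  have hb2 : ∀ᶠ i in (U : Filter ι), √‖Nf (θ i)‖ ≤ √2 := by
    filter_upwards [h2] with i hi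
    exact Real.sqrt_le_sqrt hi
  have hmul : ∀ f : ι → ℝ, (∀ i, 0 ≤ f i) → Tendsto f U (𝓝 0) →
      Tendsto (fun i => √(f i) * √‖Nf (θ i)‖) U (𝓝 0) := by
    intro f hf0 hf
    have e1 : Tendsto (fun i => √(f i) * √2) U (𝓝 0) := by
      have := (hsq f hf).mul_const √2
      simpa using this
    refine tendsto_of_tendsto_of_tendsto_of_le_of_le' tendsto_const_nhds e1
      (Eventually.of_forall fun i => by positivity) ?_
    filter_upwards [hb2] with i hi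
    gcongr
  refine ⟨Q, ?_, ?_, ?_, ?_, ?_⟩
  · intro a
    rw [← sub_eq_zero]
    refine ContinuousLinearMap.ext fun ξ => ?_
    refine ext_inner_left ℂ fun η => ?_
    rw [ContinuousLinearMap.zero_apply, inner_zero_right]
    have e0 : Tendsto (fun i => ‖u a * Qf u π (θ i) (θ i) - Qf u π (θ i) (θ i) * u a‖) U
        (𝓝 0) := by
      have e1 := hmul _ (fun i => norm_nonneg _) ((hN.com (star a)).mono_left hU)
      have e2 := hmul _ (fun i => norm_nonneg _) ((hN.com a).mono_left hU)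
      have e3 : Tendsto (fun i => d ^ 2 *
          (√‖Nf fun g => star a * θ i g - θ i g * star a‖ * √‖Nf (θ i)‖ +
            √‖Nf fun g => a * θ i g - θ i g * a‖ * √‖Nf (θ i)‖)) U (𝓝 0) := by
        have := (e1.add e2).const_mul (d ^ 2)
        simpa using this
      refine squeeze_zero (fun i => norm_nonneg _) (fun i => ?_) e3
      refine (comm_bound hd hc (hN.fin i) a).trans (le_of_eq ?_)
      ring
    have e4 := hz _ e0 ξ η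
    have e5 : Tendsto (fun i => ⟪η, (u a * Qf u π (θ i) (θ i) - Qf u π (θ i) (θ i) * u a) ξ⟫_ℂ) U
        (𝓝 ⟪η, (u a * Q - Q * u a) ξ⟫_ℂ) := by
      have f1 := hQ ξ (star (u a) η)
      have f2 := hQ (u a ξ) η
      have f3 : ∀ X : H →L[ℂ] H, ⟪η, (u a * X - X * u a) ξ⟫_ℂ =
          ⟪star (u a) η, X ξ⟫_ℂ - ⟪η, X (u a ξ)⟫_ℂ := by
        intro X
        rw [ContinuousLinearMap.sub_apply, inner_sub_right, ContinuousLinearMap.star_eq_adjoint,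
          ContinuousLinearMap.adjoint_inner_left]
        rfl
      rw [f3]
      refine (f1.sub f2).congr fun i => ?_
      rw [f3]
    exact tendsto_nhds_unique e5 e4
  · intro h
    rw [← sub_eq_zero]
    refine ContinuousLinearMap.ext fun ξ => ?_
    refine ext_inner_left ℂ fun η => ?_
    rw [ContinuousLinearMap.zero_apply, inner_zero_right]
    have e0 : Tendsto (fun i => ‖star (op π h) * Qf u π (θ i) (θ i) * op π h -
        Qf u π (θ i) (θ i)‖) U (𝓝 0) := by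
      have e1 := hmul _ (fun i => norm_nonneg _) ((hN.inv h⁻¹).mono_left hU)
      have e3 : Tendsto (fun i => d ^ 2 *
          (2 * (√‖Nf fun g => tr α h⁻¹ (θ i) g - θ i g‖ * √‖Nf (θ i)‖))) U (𝓝 0) := by
        have := (e1.const_mul 2).const_mul (d ^ 2)
        simpa using this
      refine squeeze_zero (fun i => norm_nonneg _) (fun i => ?_) e3
      refine (inv_bound hd hc (hN.fin i) h).trans (le_of_eq ?_)
      ring
    have e4 := hz _ e0 ξ η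
    have e5 : Tendsto (fun i => ⟪η, (star (op π h) * Qf u π (θ i) (θ i) * op π h -
        Qf u π (θ i) (θ i)) ξ⟫_ℂ) U
        (𝓝 ⟪η, (star (op π h) * Q * op π h - Q) ξ⟫_ℂ) := by
      have f1 := hQ (op π h ξ) (op π h η)
      have f2 := hQ ξ η
      have f3 : ∀ X : H →L[ℂ] H, ⟪η, (star (op π h) * X * op π h - X) ξ⟫_ℂ =
          ⟪op π h η, X (op π h ξ)⟫_ℂ - ⟪η, X ξ⟫_ℂ := by
        intro X
        rw [ContinuousLinearMap.sub_apply, inner_sub_right]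
        congr 1
        change ⟪η, (star (op π h)) (X (op π h ξ))⟫_ℂ = _
        rw [ContinuousLinearMap.star_eq_adjoint, ContinuousLinearMap.adjoint_inner_right]
      rw [f3]
      refine (f1.sub f2).congr fun i => ?_
      rw [f3]
    exact tendsto_nhds_unique e5 e4
  · intro ξ
    have e1 : Tendsto (fun i => (⟪ξ, Qf u π (θ i) (θ i) ξ⟫_ℂ).im) U (𝓝 (⟪ξ, Q ξ⟫_ℂ).im) :=
      (Complex.continuous_im.tendsto _).comp (hQ ξ ξ)
    have e2 : (fun i => (⟪ξ, Qf u π (θ i) (θ i) ξ⟫_ℂ).im) = fun _ => 0 := by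
      funext i
      rw [Qf_form (hN.fin i), Complex.ofReal_im]
    rw [e2] at e1
    exact (tendsto_nhds_unique e1 tendsto_const_nhds)
  · intro ξ
    have e1 : Tendsto (fun i => d ^ 2 * (⟪ξ, Qf u π (θ i) (θ i) ξ⟫_ℂ).re) U
        (𝓝 (d ^ 2 * (⟪ξ, Q ξ⟫_ℂ).re)) :=
      ((Complex.continuous_re.tendsto _).comp (hQ ξ ξ)).const_mul _
    have e2 : Tendsto (fun i => (1 - ‖Nf (θ i) - 1‖) * ‖ξ‖ ^ 2) U (𝓝 (‖ξ‖ ^ 2)) := by
      have := (h1.const_sub 1).mul_const (‖ξ‖ ^ 2)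
      simpa using this
    exact le_of_tendsto_of_tendsto' e2 e1 fun i => Qf_lower hd (hN.fin i) ξ
  · intro ξ
    have e1 : Tendsto (fun i => (⟪ξ, Qf u π (θ i) (θ i) ξ⟫_ℂ).re) U
        (𝓝 ((⟪ξ, Q ξ⟫_ℂ).re)) :=
      ((Complex.continuous_re.tendsto _).comp (hQ ξ ξ))
    have e2 : Tendsto (fun i => d ^ 2 * ((1 + ‖Nf (θ i) - 1‖) * ‖ξ‖ ^ 2)) U
        (𝓝 (d ^ 2 * ‖ξ‖ ^ 2)) := by
      have := ((h1.const_add 1).mul_const (‖ξ‖ ^ 2)).const_mul (d ^ 2)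
      simpa using this
    refine le_of_tendsto_of_tendsto' e1 e2 fun i => ?_
    refine (Qf_upper hd (hN.fin i) ξ).trans ?_
    gcongr
    exact hle i

/-- conjugation of a representation -/
def conjRep (S : (H →L[ℂ] H)ˣ) (π : G →* (H →L[ℂ] H)ˣ) : G →* (H →L[ℂ] H)ˣ where
  toFun g := S * π g * S⁻¹
  map_one' := by simp
  map_mul' g h := by rw [map_mul]; group

/-- **Main theorem.** -/
theorem covariant {ι : Type} {l : Filter ι} {θ : ι → G → A} (hN : Net α l θ)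
    (v : A →ₐ[ℂ] (H →L[ℂ] H)) {c d : ℝ} (hc : 1 ≤ c) (hv : ∀ a, ‖v a‖ ≤ c * ‖a‖)
    (hd : ∀ g, ‖op π g‖ ≤ d) (hcov : Cov α v π) :
    ∃ S : (H →L[ℂ] H)ˣ,
      ‖(S : H →L[ℂ] H)‖ ^ 2 ≤ (864 * (2 * c) ^ 29) ^ 3 * d ^ 2 ∧
      ‖((S⁻¹ : (H →L[ℂ] H)ˣ) : H →L[ℂ] H)‖ ^ 2 ≤ (864 * (2 * c) ^ 29) ^ 3 * d ^ 2 ∧
      (∀ a, (S : H →L[ℂ] H) * v (star a) * ((S⁻¹ : (H →L[ℂ] H)ˣ) : H →L[ℂ] H) =
        star ((S : H →L[ℂ] H) * v a * ((S⁻¹ : (H →L[ℂ] H)ˣ) : H →L[ℂ] H))) ∧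
      (∀ g, (S : H →L[ℂ] H) * op π g * ((S⁻¹ : (H →L[ℂ] H)ˣ) : H →L[ℂ] H) ∈
        unitary (H →L[ℂ] H)) := by
  set κ : ℝ := 864 * (2 * c) ^ 29 with hκ
  have hκ0 : 0 ≤ κ := by positivity
  have hd0 : 0 ≤ d := (norm_nonneg _).trans (hd 1)
  obtain ⟨S1', T1', h1, h2, h3, h4, h5⟩ := H770R2.Kad.fin_similar A H v.toLinearMap
    ⟨fun a b => map_mul v a b, map_one v⟩ c hc hv
  let S1 : (H →L[ℂ] H)ˣ := ⟨S1', T1', h1, h2⟩
  have hS1 : ‖(S1 : H →L[ℂ] H)‖ ^ 2 ≤ κ := h3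
  have hT1 : ‖((S1⁻¹ : (H →L[ℂ] H)ˣ) : H →L[ℂ] H)‖ ^ 2 ≤ κ := h4
  -- the *-homomorphism
  let u : A →⋆ₐ[ℂ] (H →L[ℂ] H) :=
    { toFun := fun a => (S1 : H →L[ℂ] H) * v a * ((S1⁻¹ : (H →L[ℂ] H)ˣ) : H →L[ℂ] H)
      map_one' := by rw [map_one, mul_one, Units.mul_inv]
      map_mul' := fun a b => by
        rw [map_mul]
        calc (S1 : H →L[ℂ] H) * (v a * v b) * ((S1⁻¹ : (H →L[ℂ] H)ˣ) : H →L[ℂ] H)
            = (S1 : H →L[ℂ] H) * v a * 1 * v b * ((S1⁻¹ : (H →L[ℂ] H)ˣ) : H →L[ℂ] H) := by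
              rw [mul_one]; simp only [mul_assoc]
          _ = _ := by rw [← Units.inv_mul S1]; simp only [mul_assoc]
      map_zero' := by rw [map_zero, mul_zero, zero_mul]
      map_add' := fun a b => by rw [map_add, mul_add, add_mul]
      commutes' := fun r => by
        rw [Algebra.algebraMap_eq_smul_one, map_smul, map_one, mul_smul_comm, mul_one,
          smul_mul_assoc, Units.mul_inv, ← Algebra.algebraMap_eq_smul_one]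
      map_star' := fun a => (h5 a).symm }
  have hu : ∀ a, u a = (S1 : H →L[ℂ] H) * v a * ((S1⁻¹ : (H →L[ℂ] H)ˣ) : H →L[ℂ] H) :=
    fun a => rfl
  let ρ := conjRep S1 π
  have hρ : ∀ g, op ρ g = (S1 : H →L[ℂ] H) * op π g * ((S1⁻¹ : (H →L[ℂ] H)ˣ) : H →L[ℂ] H) :=
    fun g => rfl
  have hnn : ‖(S1 : H →L[ℂ] H)‖ * ‖((S1⁻¹ : (H →L[ℂ] H)ˣ) : H →L[ℂ] H)‖ ≤ κ := by
    have e := two_mul_le_add_sq ‖(S1 : H →L[ℂ] H)‖ ‖((S1⁻¹ : (H →L[ℂ] H)ˣ) : H →L[ℂ] H)‖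
    linarith
  have hρd : ∀ g, ‖op ρ g‖ ≤ κ * d := by
    intro g
    rw [hρ]
    calc _ ≤ ‖(S1 : H →L[ℂ] H) * op π g‖ * ‖((S1⁻¹ : (H →L[ℂ] H)ˣ) : H →L[ℂ] H)‖ :=
          norm_mul_le _ _
      _ ≤ (‖(S1 : H →L[ℂ] H)‖ * d) * ‖((S1⁻¹ : (H →L[ℂ] H)ˣ) : H →L[ℂ] H)‖ := by
          gcongr
          exact (norm_mul_le _ _).trans (by gcongr; exact hd g)
      _ = (‖(S1 : H →L[ℂ] H)‖ * ‖((S1⁻¹ : (H →L[ℂ] H)ˣ) : H →L[ℂ] H)‖) * d := by ring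
      _ ≤ κ * d := by gcongr
  have hconj : ∀ X Y : H →L[ℂ] H,
      ((S1 : H →L[ℂ] H) * X * ((S1⁻¹ : (H →L[ℂ] H)ˣ) : H →L[ℂ] H)) *
        ((S1 : H →L[ℂ] H) * Y * ((S1⁻¹ : (H →L[ℂ] H)ˣ) : H →L[ℂ] H)) =
      (S1 : H →L[ℂ] H) * (X * Y) * ((S1⁻¹ : (H →L[ℂ] H)ˣ) : H →L[ℂ] H) := by
    intro X Y
    calc _ = (S1 : H →L[ℂ] H) * X * (((S1⁻¹ : (H →L[ℂ] H)ˣ) : H →L[ℂ] H) * (S1 : H →L[ℂ] H)) *
          Y * ((S1⁻¹ : (H →L[ℂ] H)ˣ) : H →L[ℂ] H) := by simp only [mul_assoc]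
      _ = _ := by rw [Units.inv_mul, mul_one]; simp only [mul_assoc]
  have hcov' : Cov α u ρ := by
    intro g a
    rw [hρ, hu, hu, hconj, hconj, hcov g a]
  obtain ⟨Q, q1, q2, q3, q4, q5⟩ := exists_Q (u := u) (π := ρ) hN hρd hcov'
  -- degenerate case
  by_cases hkd : κ * d = 0
  · -- then `H` is trivial
    have hsub : Subsingleton H := by
      refine ⟨fun x y => ?_⟩
      have e : ∀ z : H, z = 0 := by
        intro z
        have := q4 z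
        rw [hkd] at this
        have h0 : ‖z‖ ^ 2 ≤ 0 := by simpa using this
        have h00 : ‖z‖ = 0 := by nlinarith [norm_nonneg z]
        exact norm_eq_zero.mp h00
      rw [e x, e y]
    have hss : ∀ X Y : H →L[ℂ] H, X = Y := fun X Y => by
      ext z; exact Subsingleton.elim _ _
    refine ⟨1, ?_, ?_, fun a => hss _ _, fun g => ?_⟩
    · rw [hss ((1 : (H →L[ℂ] H)ˣ) : H →L[ℂ] H) 0, norm_zero, zero_pow two_ne_zero]; positivity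
    · rw [hss (((1 : (H →L[ℂ] H)ˣ)⁻¹ : (H →L[ℂ] H)ˣ) : H →L[ℂ] H) 0, norm_zero, zero_pow two_ne_zero]; positivity
    · rw [Unitary.mem_iff]; exact ⟨hss _ _, hss _ _⟩
  have hkd0 : 0 < κ * d := lt_of_le_of_ne (by positivity) (Ne.symm hkd)
  obtain ⟨R, r1, r2, r3, r4, r5⟩ := exists_root (Q := Q) (m := ((κ * d) ^ 2)⁻¹)
    (M := (κ * d) ^ 2) (by positivity) (by positivity) q3
    (fun ξ => by
      rw [inv_mul_le_iff₀ (by positivity)]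
      exact q4 ξ)
    (fun ξ => q5 ξ)
  rw [inv_inv] at r4
  refine ⟨R * S1, ?_, ?_, ?_, ?_⟩
  · rw [Units.val_mul]
    calc ‖(R : H →L[ℂ] H) * S1‖ ^ 2 ≤ (‖(R : H →L[ℂ] H)‖ * ‖(S1 : H →L[ℂ] H)‖) ^ 2 := by
          gcongr; exact norm_mul_le _ _
      _ = ‖(R : H →L[ℂ] H)‖ ^ 2 * ‖(S1 : H →L[ℂ] H)‖ ^ 2 := by ring
      _ ≤ (κ * d) ^ 2 * κ := by gcongr
      _ = κ ^ 3 * d ^ 2 := by ring
  · rw [mul_inv_rev, Units.val_mul]
    calc ‖((S1⁻¹ : (H →L[ℂ] H)ˣ) : H →L[ℂ] H) * ((R⁻¹ : (H →L[ℂ] H)ˣ) : H →L[ℂ] H)‖ ^ 2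
        ≤ (‖((S1⁻¹ : (H →L[ℂ] H)ˣ) : H →L[ℂ] H)‖ *
            ‖((R⁻¹ : (H →L[ℂ] H)ˣ) : H →L[ℂ] H)‖) ^ 2 := by
          gcongr; exact norm_mul_le _ _
      _ = ‖((S1⁻¹ : (H →L[ℂ] H)ˣ) : H →L[ℂ] H)‖ ^ 2 *
            ‖((R⁻¹ : (H →L[ℂ] H)ˣ) : H →L[ℂ] H)‖ ^ 2 := by ring
      _ ≤ κ * (κ * d) ^ 2 := by gcongr
      _ = κ ^ 3 * d ^ 2 := by ring
  · intro a
    have e : ∀ b : A, ((R * S1 : (H →L[ℂ] H)ˣ) : H →L[ℂ] H) * v b *
        (((R * S1)⁻¹ : (H →L[ℂ] H)ˣ) : H →L[ℂ] H) = u b := by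
      intro b
      have hcm : (R : H →L[ℂ] H) * u b = u b * R := (r5 (u b) (q1 b).symm).eq
      calc _ = (R : H →L[ℂ] H) * u b * ((R⁻¹ : (H →L[ℂ] H)ˣ) : H →L[ℂ] H) := by
            rw [Units.val_mul, mul_inv_rev, Units.val_mul, hu]
            simp only [mul_assoc]
        _ = u b := by rw [hcm, mul_assoc, Units.mul_inv, mul_one]
    rw [e, e, map_star]
  · intro g
    have e : ((R * S1 : (H →L[ℂ] H)ˣ) : H →L[ℂ] H) * op π g *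
        (((R * S1)⁻¹ : (H →L[ℂ] H)ˣ) : H →L[ℂ] H) =
        (R : H →L[ℂ] H) * op ρ g * ((R⁻¹ : (H →L[ℂ] H)ˣ) : H →L[ℂ] H) := by
      rw [Units.val_mul, mul_inv_rev, Units.val_mul, hρ]
      simp only [mul_assoc]
    rw [e]
    have hRi : star ((R⁻¹ : (H →L[ℂ] H)ˣ) : H →L[ℂ] H) = ((R⁻¹ : (H →L[ℂ] H)ˣ) : H →L[ℂ] H) := by
      have h6 : star ((R⁻¹ : (H →L[ℂ] H)ˣ) : H →L[ℂ] H) * (R : H →L[ℂ] H) = 1 := by
        conv_lhs => rw [← r1]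
        rw [← star_mul, Units.mul_inv, star_one]
      calc star ((R⁻¹ : (H →L[ℂ] H)ˣ) : H →L[ℂ] H)
          = star ((R⁻¹ : (H →L[ℂ] H)ˣ) : H →L[ℂ] H) * ((R : H →L[ℂ] H) *
              ((R⁻¹ : (H →L[ℂ] H)ˣ) : H →L[ℂ] H)) := by rw [Units.mul_inv, mul_one]
        _ = _ := by rw [← mul_assoc, h6, one_mul]
    have hl : star ((R : H →L[ℂ] H) * op ρ g * ((R⁻¹ : (H →L[ℂ] H)ˣ) : H →L[ℂ] H)) *
        ((R : H →L[ℂ] H) * op ρ g * ((R⁻¹ : (H →L[ℂ] H)ˣ) : H →L[ℂ] H)) = 1 := by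
      rw [star_mul, star_mul, hRi, r1]
      calc _ = ((R⁻¹ : (H →L[ℂ] H)ˣ) : H →L[ℂ] H) * (star (op ρ g) * ((R : H →L[ℂ] H) * R) *
            op ρ g) * ((R⁻¹ : (H →L[ℂ] H)ˣ) : H →L[ℂ] H) := by simp only [mul_assoc]
        _ = 1 := by
            rw [r2, q2 g, ← r2, ← mul_assoc, Units.inv_mul, one_mul, Units.mul_inv]
    rw [Unitary.mem_iff]
    refine ⟨hl, ?_⟩
    let Z : (H →L[ℂ] H)ˣ := R * ρ g * R⁻¹
    have hZ : (Z : H →L[ℂ] H) =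
        (R : H →L[ℂ] H) * op ρ g * ((R⁻¹ : (H →L[ℂ] H)ˣ) : H →L[ℂ] H) := rfl
    rw [← hZ] at hl ⊢
    have h7 : star (Z : H →L[ℂ] H) = ((Z⁻¹ : (H →L[ℂ] H)ˣ) : H →L[ℂ] H) := by
      calc star (Z : H →L[ℂ] H) = star (Z : H →L[ℂ] H) * ((Z : H →L[ℂ] H) *
            ((Z⁻¹ : (H →L[ℂ] H)ˣ) : H →L[ℂ] H)) := by rw [Units.mul_inv, mul_one]
        _ = _ := by rw [← mul_assoc, hl, one_mul]
    rw [h7, Units.mul_inv]

end Pool.Agent.Y324.CV
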