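import Mathlib

/-!
Covariant pairs `(u, π)` where `u` is a *-homomorphism and `π` a uniformly bounded representation:
the operators `Q(x, y) = ∑ (V_g u(x_g))* V_g u(y_g)` with `V_g = π(g⁻¹)`.
-/

set_option autoImplicit false

open Filter Topology

noncomputable section

namespace Pool.Agent.Y324.CV

variable {G : Type} [Group G] {A : Type} [CStarAlgebra A]
  {H : Type} [NormedAddCommGroup H] [InnerProductSpace ℂ H] [CompleteSpace H]

/-- the operator `π(g)` -/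
def op (π : G →* (H →L[ℂ] H)ˣ) (g : G) : H →L[ℂ] H := (π g : (H →L[ℂ] H)ˣ)

lemma op_mul (π : G →* (H →L[ℂ] H)ˣ) (g h : G) : op π (g * h) = op π g * op π h := by
  unfold op; rw [map_mul, Units.val_mul]

lemma op_one (π : G →* (H →L[ℂ] H)ˣ) : op π 1 = 1 := by
  unfold op; rw [map_one, Units.val_one]

lemma op_inv_mul (π : G →* (H →L[ℂ] H)ˣ) (g : G) : op π g⁻¹ * op π g = 1 := by
  rw [← op_mul, inv_mul_cancel, op_one]

lemma op_mul_inv (π : G →* (H →L[ℂ] H)ˣ) (g : G) : op π g * op π g⁻¹ = 1 := by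
  rw [← op_mul, mul_inv_cancel, op_one]

/-- covariance -/
def Cov (α : G →* (A ≃⋆ₐ[ℂ] A)) (u : A → (H →L[ℂ] H)) (π : G →* (H →L[ℂ] H)ˣ) : Prop :=
  ∀ g a, op π g * u a = u (α g a) * op π g

/-- `N(x) = ∑ x_g* x_g` -/
def Nf (x : G → A) : A := ∑ᶠ g, star (x g) * x g

/-- the operator `Q(x, y)` -/
def Qf (u : A →⋆ₐ[ℂ] (H →L[ℂ] H)) (π : G →* (H →L[ℂ] H)ˣ) (x y : G → A) : H →L[ℂ] H :=
  ∑ᶠ g, star (op π g⁻¹ * u (x g)) * (op π g⁻¹ * u (y g))

variable {α : G →* (A ≃⋆ₐ[ℂ] A)} {u : A →⋆ₐ[ℂ] (H →L[ℂ] H)} {π : G →* (H →L[ℂ] H)ˣ}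

lemma norm_le_of_inner {Q : H →L[ℂ] H} {M : ℝ} (hM : 0 ≤ M)
    (h : ∀ ξ η : H, ‖inner ℂ η (Q ξ)‖ ≤ M * ‖η‖ * ‖ξ‖) : ‖Q‖ ≤ M := by
  refine ContinuousLinearMap.opNorm_le_bound _ hM fun ξ => ?_
  by_cases hz : ‖Q ξ‖ = 0
  · rw [hz]; positivity
  have hz0 : 0 < ‖Q ξ‖ := lt_of_le_of_ne (norm_nonneg _) (Ne.symm hz)
  have g3 := h ξ (Q ξ)
  rw [inner_self_eq_norm_sq_to_K, norm_pow, RCLike.norm_ofReal, abs_norm, sq] at g3
  have g4 : ‖Q ξ‖ * ‖Q ξ‖ ≤ ‖Q ξ‖ * (M * ‖ξ‖) := by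
    calc _ ≤ _ := g3
      _ = _ := by ring
  exact le_of_mul_le_mul_left g4 hz0

lemma Nf_eq {x : G → A} {T : Finset G} (hT : ∀ g ∉ T, x g = 0) :
    Nf x = ∑ g ∈ T, star (x g) * x g := by
  unfold Nf
  refine finsum_eq_sum_of_support_subset _ ?_
  intro g hg
  by_contra hgT
  apply hg
  simp only
  rw [hT g hgT, mul_zero]

lemma Qf_eq {x y : G → A} {T : Finset G} (hT : ∀ g ∉ T, x g = 0 ∨ y g = 0) :
    Qf u π x y = ∑ g ∈ T, star (op π g⁻¹ * u (x g)) * (op π g⁻¹ * u (y g)) := by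
  unfold Qf
  refine finsum_eq_sum_of_support_subset _ ?_
  intro g hg
  by_contra hgT
  apply hg
  simp only
  rcases hT g hgT with h | h
  · rw [h, map_zero, mul_zero, star_zero, zero_mul]
  · rw [h, map_zero, mul_zero, mul_zero]

lemma norm_u_le (u : A →⋆ₐ[ℂ] (H →L[ℂ] H)) (a : A) : ‖u a‖ ≤ ‖a‖ :=
  NonUnitalStarAlgHom.norm_apply_le u a

lemma sum_sq {x : G → A} (T : Finset G) (ξ : H) :
    ∑ g ∈ T, ‖u (x g) ξ‖ ^ 2 = (inner ℂ ξ (u (∑ g ∈ T, star (x g) * x g) ξ)).re := by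
  rw [map_sum, ContinuousLinearMap.sum_apply, inner_sum, Complex.re_sum]
  refine Finset.sum_congr rfl fun g _ => ?_
  rw [map_mul, map_star, ContinuousLinearMap.mul_apply, ContinuousLinearMap.star_eq_adjoint,
    ContinuousLinearMap.adjoint_inner_right, inner_self_eq_norm_sq_to_K]
  norm_cast

lemma sum_le {x : G → A} {T : Finset G} (hT : ∀ g ∉ T, x g = 0) (ξ : H) :
    ∑ g ∈ T, ‖u (x g) ξ‖ ^ 2 ≤ ‖Nf x‖ * ‖ξ‖ ^ 2 := by
  rw [sum_sq, ← Nf_eq hT]
  calc (inner ℂ ξ (u (Nf x) ξ)).re ≤ ‖inner ℂ ξ (u (Nf x) ξ)‖ := Complex.re_le_norm _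
    _ ≤ ‖ξ‖ * ‖u (Nf x) ξ‖ := norm_inner_le_norm _ _
    _ ≤ ‖ξ‖ * (‖Nf x‖ * ‖ξ‖) := by
        gcongr
        exact ((u (Nf x)).le_opNorm ξ).trans (by gcongr; exact norm_u_le u _)
    _ = _ := by ring

lemma sum_V_le {d : ℝ} (hd : ∀ g, ‖op π g‖ ≤ d) {x : G → A} {T : Finset G}
    (hT : ∀ g ∉ T, x g = 0) (ξ : H) :
    ∑ g ∈ T, ‖(op π g⁻¹ * u (x g)) ξ‖ ^ 2 ≤ d ^ 2 * (‖Nf x‖ * ‖ξ‖ ^ 2) := by
  calc ∑ g ∈ T, ‖(op π g⁻¹ * u (x g)) ξ‖ ^ 2 ≤ ∑ g ∈ T, d ^ 2 * ‖u (x g) ξ‖ ^ 2 := by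
        refine Finset.sum_le_sum fun g _ => ?_
        rw [← mul_pow, ContinuousLinearMap.mul_apply]
        gcongr
        exact ((op π g⁻¹).le_opNorm _).trans (by gcongr; exact hd _)
    _ = d ^ 2 * ∑ g ∈ T, ‖u (x g) ξ‖ ^ 2 := by rw [Finset.mul_sum]
    _ ≤ _ := by gcongr; exact sum_le hT ξ

/-- Cauchy-Schwarz -/
lemma Qf_norm {d : ℝ} (hd : ∀ g, ‖op π g‖ ≤ d) {x y : G → A} (hx : x.support.Finite)
    (hy : y.support.Finite) : ‖Qf u π x y‖ ≤ d ^ 2 * (√‖Nf x‖ * √‖Nf y‖) := by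
  classical
  have hd0 : 0 ≤ d := (norm_nonneg _).trans (hd 1)
  let T : Finset G := hx.toFinset ∪ hy.toFinset
  have hxT : ∀ g ∉ T, x g = 0 := by
    intro g hg
    by_contra h
    exact hg (Finset.mem_union_left _ (by simpa using h))
  have hyT : ∀ g ∉ T, y g = 0 := by
    intro g hg
    by_contra h
    exact hg (Finset.mem_union_right _ (by simpa using h))
  refine norm_le_of_inner (by positivity) fun ξ η => ?_
  rw [Qf_eq (T := T) (fun g hg => Or.inl (hxT g hg)), ContinuousLinearMap.sum_apply, inner_sum]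
  have h1 : ∀ g ∈ T, ‖inner ℂ η ((star (op π g⁻¹ * u (x g)) * (op π g⁻¹ * u (y g))) ξ)‖ ≤
      ‖(op π g⁻¹ * u (x g)) η‖ * ‖(op π g⁻¹ * u (y g)) ξ‖ := by
    intro g _
    rw [ContinuousLinearMap.mul_apply, ContinuousLinearMap.star_eq_adjoint,
      ContinuousLinearMap.adjoint_inner_right]
    exact norm_inner_le_norm _ _
  refine (norm_sum_le _ _).trans ((Finset.sum_le_sum h1).trans ?_)
  refine (Real.sum_mul_le_sqrt_mul_sqrt _ _ _).trans ?_
  have e1 := Real.sqrt_le_sqrt (sum_V_le (u := u) hd hxT η)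
  have e2 := Real.sqrt_le_sqrt (sum_V_le (u := u) hd hyT ξ)
  have e3 : √(d ^ 2 * (‖Nf x‖ * ‖η‖ ^ 2)) = d * (√‖Nf x‖ * ‖η‖) := by
    rw [Real.sqrt_mul (by positivity), Real.sqrt_mul (norm_nonneg _), Real.sqrt_sq hd0,
      Real.sqrt_sq (norm_nonneg _)]
  have e4 : √(d ^ 2 * (‖Nf y‖ * ‖ξ‖ ^ 2)) = d * (√‖Nf y‖ * ‖ξ‖) := by
    rw [Real.sqrt_mul (by positivity), Real.sqrt_mul (norm_nonneg _), Real.sqrt_sq hd0,
      Real.sqrt_sq (norm_nonneg _)]
  rw [e3] at e1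
  rw [e4] at e2
  calc _ ≤ (d * (√‖Nf x‖ * ‖η‖)) * (d * (√‖Nf y‖ * ‖ξ‖)) :=
        mul_le_mul e1 e2 (Real.sqrt_nonneg _) (by positivity)
    _ = _ := by ring

lemma fin_sub {x y : G → A} (hx : x.support.Finite) (hy : y.support.Finite) :
    (fun g => x g - y g).support.Finite :=
  (hx.union hy).subset fun g hg => by
    by_contra h
    simp only [Set.mem_union, Function.mem_support, not_or, not_not] at h
    exact hg (by simp only; rw [h.1, h.2, sub_zero])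

lemma Qf_sub_left {x x' y : G → A} (hx : x.support.Finite) (hx' : x'.support.Finite) :
    Qf u π (fun g => x g - x' g) y = Qf u π x y - Qf u π x' y := by
  classical
  let T : Finset G := hx.toFinset ∪ hx'.toFinset
  have hxT : ∀ g ∉ T, x g = 0 := by
    intro g hg
    by_contra h
    exact hg (Finset.mem_union_left _ (by simpa using h))
  have hyT : ∀ g ∉ T, x' g = 0 := by
    intro g hg
    by_contra h
    exact hg (Finset.mem_union_right _ (by simpa using h))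
  rw [Qf_eq (T := T) (fun g hg => Or.inl (by rw [hxT g hg, hyT g hg, sub_zero])),
    Qf_eq (T := T) (fun g hg => Or.inl (hxT g hg)), Qf_eq (T := T) (fun g hg => Or.inl (hyT g hg)),
    ← Finset.sum_sub_distrib]
  refine Finset.sum_congr rfl fun g _ => ?_
  rw [map_sub, mul_sub, star_sub, sub_mul]

lemma Qf_sub_right {x y y' : G → A} (hy : y.support.Finite) (hy' : y'.support.Finite) :
    Qf u π x (fun g => y g - y' g) = Qf u π x y - Qf u π x y' := by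
  classical
  let T : Finset G := hy.toFinset ∪ hy'.toFinset
  have hxT : ∀ g ∉ T, y g = 0 := by
    intro g hg
    by_contra h
    exact hg (Finset.mem_union_left _ (by simpa using h))
  have hyT : ∀ g ∉ T, y' g = 0 := by
    intro g hg
    by_contra h
    exact hg (Finset.mem_union_right _ (by simpa using h))
  rw [Qf_eq (T := T) (fun g hg => Or.inr (by rw [hxT g hg, hyT g hg, sub_zero])),
    Qf_eq (T := T) (fun g hg => Or.inr (hxT g hg)), Qf_eq (T := T) (fun g hg => Or.inr (hyT g hg)),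
    ← Finset.sum_sub_distrib]
  refine Finset.sum_congr rfl fun g _ => ?_
  rw [map_sub, mul_sub, mul_sub]

/-- the operators `V_g* V_g` commute with the algebra -/
lemma comm_P (hc : Cov α u π) (g : G) (a : A) :
    u a * (star (op π g⁻¹) * op π g⁻¹) = (star (op π g⁻¹) * op π g⁻¹) * u a := by
  have h1 : op π g⁻¹ * u a = u (α g⁻¹ a) * op π g⁻¹ := hc g⁻¹ a
  have h2 : op π g⁻¹ * u (star a) = u (α g⁻¹ (star a)) * op π g⁻¹ := hc g⁻¹ (star a)
  have h3 := congrArg star h2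
  rw [star_mul, star_mul, ← map_star u, star_star, ← map_star u, ← map_star (α g⁻¹),
    star_star] at h3
  calc u a * (star (op π g⁻¹) * op π g⁻¹) = (u a * star (op π g⁻¹)) * op π g⁻¹ := by
        rw [mul_assoc]
    _ = star (op π g⁻¹) * (u (α g⁻¹ a) * op π g⁻¹) := by rw [h3, mul_assoc]
    _ = _ := by rw [← h1, mul_assoc]

lemma Qf_move (hc : Cov α u π) {x y : G → A} (a : A) :
    Qf u π x (fun g => a * y g) = Qf u π (fun g => star a * x g) y := by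
  unfold Qf
  congr 1
  funext g
  have h1 := comm_P hc g a
  simp only [star_mul, ← map_star, star_star, map_mul]
  calc u (star (x g)) * star (op π g⁻¹) * (op π g⁻¹ * (u a * u (y g)))
      = u (star (x g)) * ((star (op π g⁻¹) * op π g⁻¹) * u a) * u (y g) := by
        simp only [mul_assoc]
    _ = _ := by rw [← h1]; simp only [mul_assoc]

lemma Qf_mul_right {x y : G → A} (hy : y.support.Finite) (a : A) :
    Qf u π x y * u a = Qf u π x (fun g => y g * a) := by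
  classical
  have hyT : ∀ g ∉ hy.toFinset, y g = 0 := fun g hg => by simpa using hg
  rw [Qf_eq (T := hy.toFinset) (fun g hg => Or.inr (hyT g hg)),
    Qf_eq (T := hy.toFinset) (fun g hg => Or.inr (by rw [hyT g hg, zero_mul])), Finset.sum_mul]
  refine Finset.sum_congr rfl fun g _ => ?_
  rw [map_mul]
  simp only [mul_assoc]

lemma Qf_mul_left {x y : G → A} (hx : x.support.Finite) (a : A) :
    u a * Qf u π x y = Qf u π (fun g => x g * star a) y := by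
  classical
  have hxT : ∀ g ∉ hx.toFinset, x g = 0 := fun g hg => by simpa using hg
  rw [Qf_eq (T := hx.toFinset) (fun g hg => Or.inl (hxT g hg)),
    Qf_eq (T := hx.toFinset) (fun g hg => Or.inl (by rw [hxT g hg, zero_mul])), Finset.mul_sum]
  refine Finset.sum_congr rfl fun g _ => ?_
  simp only [star_mul, ← map_star, star_star, map_mul]
  simp only [mul_assoc]

lemma fin_mul_left {x : G → A} (hx : x.support.Finite) (a : A) :
    (fun g => a * x g).support.Finite :=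
  hx.subset fun g hg h => hg (by simp only; rw [h, mul_zero])

lemma fin_mul_right {x : G → A} (hx : x.support.Finite) (a : A) :
    (fun g => x g * a).support.Finite :=
  hx.subset fun g hg h => hg (by simp only; rw [h, zero_mul])

/-- the commutator estimate -/
lemma comm_bound {d : ℝ} (hd : ∀ g, ‖op π g‖ ≤ d) (hc : Cov α u π) {θ : G → A}
    (hθ : θ.support.Finite) (a : A) :
    ‖u a * Qf u π θ θ - Qf u π θ θ * u a‖ ≤ d ^ 2 *
      (√‖Nf fun g => star a * θ g - θ g * star a‖ * √‖Nf θ‖ +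
        √‖Nf θ‖ * √‖Nf fun g => a * θ g - θ g * a‖) := by
  have h1 : u a * Qf u π θ θ - Qf u π θ θ * u a =
      Qf u π θ (fun g => a * θ g - θ g * a) - Qf u π (fun g => star a * θ g - θ g * star a) θ := by
    rw [Qf_mul_left hθ, Qf_mul_right hθ, Qf_sub_right (fin_mul_left hθ a) (fin_mul_right hθ a),
      Qf_sub_left (fin_mul_left hθ _) (fin_mul_right hθ _), Qf_move hc]
    abel
  rw [h1]
  refine (norm_sub_le _ _).trans ?_
  have e1 := Qf_norm (u := u) (π := π) hd hθ (fin_sub (fin_mul_left hθ a) (fin_mul_right hθ a))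
  have e2 := Qf_norm (u := u) (π := π) hd
    (fin_sub (fin_mul_left hθ (star a)) (fin_mul_right hθ (star a))) hθ
  calc _ ≤ d ^ 2 * (√‖Nf θ‖ * √‖Nf fun g => a * θ g - θ g * a‖) +
        d ^ 2 * (√‖Nf fun g => star a * θ g - θ g * star a‖ * √‖Nf θ‖) := add_le_add e1 e2
    _ = _ := by ring

/-- the translate `(γ_h x)(g) = α_h(x(h⁻¹ g))` -/
def tr (α : G →* (A ≃⋆ₐ[ℂ] A)) (h : G) (x : G → A) : G → A := fun g => α h (x (h⁻¹ * g))

lemma fin_tr (h : G) {x : G → A} (hx : x.support.Finite) : (tr α h x).support.Finite := by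
  refine (hx.image fun g => h * g).subset fun g hg => ?_
  refine ⟨h⁻¹ * g, ?_, by simp⟩
  intro h0
  apply hg
  unfold tr
  rw [h0, map_zero]

lemma Nf_tr (h : G) {x : G → A} (hx : x.support.Finite) : Nf (tr α h x) = α h (Nf x) := by
  have h1 : α h (Nf x) = ∑ᶠ g, star (α h (x g)) * α h (x g) := by
    unfold Nf
    have := (α h : A →⋆ₐ[ℂ] A).toAlgHom.toLinearMap.toAddMonoidHom.map_finsum
      (f := fun g => star (x g) * x g) (hx.subset fun g hg h0 => hg (by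
        simp only; rw [h0, mul_zero]))
    refine Eq.trans this ?_
    congr 1
    funext g
    change α h (star (x g) * x g) = _
    rw [map_mul, map_star]
  rw [h1]
  unfold Nf tr
  exact finsum_comp_equiv (Equiv.mulLeft h⁻¹) (f := fun g => star (α h (x g)) * α h (x g))

lemma norm_Nf_tr (h : G) {x : G → A} (hx : x.support.Finite) : ‖Nf (tr α h x)‖ = ‖Nf x‖ := by
  rw [Nf_tr h hx]
  refine le_antisymm (NonUnitalStarAlgHom.norm_apply_le (α h) _) ?_
  have h2 : Nf x = α h⁻¹ (α h (Nf x)) := by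
    rw [← StarAlgEquiv.mul_apply, ← map_mul, inv_mul_cancel, map_one, StarAlgEquiv.one_apply]
  conv_lhs => rw [h2]
  exact NonUnitalStarAlgHom.norm_apply_le (α h⁻¹) _

lemma Qf_tr (hc : Cov α u π) (h : G) {x y : G → A} (hx : x.support.Finite) :
    star (op π h) * Qf u π x y * op π h = Qf u π (tr α h⁻¹ x) (tr α h⁻¹ y) := by
  classical
  have hxT : ∀ g ∉ hx.toFinset, x g = 0 := fun g hg => by simpa using hg
  have h1 : star (op π h) * Qf u π x y * op π h = ∑ᶠ g, star (op π (h⁻¹ * g)⁻¹ *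
      u (α h⁻¹ (x g))) * (op π (h⁻¹ * g)⁻¹ * u (α h⁻¹ (y g))) := by
    rw [Qf_eq (T := hx.toFinset) (fun g hg => Or.inl (hxT g hg)), Finset.mul_sum, Finset.sum_mul,
      finsum_eq_sum_of_support_subset (s := hx.toFinset)]
    · refine Finset.sum_congr rfl fun g _ => ?_
      have e : ∀ a : A, op π g⁻¹ * u a * op π h = op π (h⁻¹ * g)⁻¹ * u (α h⁻¹ a) := by
        intro a
        have hcov : op π h * u (α h⁻¹ a) = u a * op π h := by
          rw [hc h (α h⁻¹ a), ← StarAlgEquiv.mul_apply, ← map_mul, mul_inv_cancel, map_one,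
            StarAlgEquiv.one_apply]
        rw [mul_assoc, ← hcov, ← mul_assoc, ← op_mul, mul_inv_rev, inv_inv]
      rw [← e, ← e, star_mul (op π g⁻¹ * u (x g)) (op π h)]
      simp only [mul_assoc]
    · intro g hg
      by_contra hgT
      apply hg
      simp only
      rw [hxT g (by simpa using hgT), map_zero, map_zero, mul_zero, star_zero, zero_mul]
  rw [h1]
  unfold Qf tr
  rw [← finsum_comp_equiv (Equiv.mulLeft h)]
  congr 1
  funext g
  simp

/-- the invariance estimate -/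
lemma inv_bound {d : ℝ} (hd : ∀ g, ‖op π g‖ ≤ d) (hc : Cov α u π) {θ : G → A}
    (hθ : θ.support.Finite) (h : G) :
    ‖star (op π h) * Qf u π θ θ * op π h - Qf u π θ θ‖ ≤ d ^ 2 *
      (2 * √‖Nf θ‖ * √‖Nf fun g => tr α h⁻¹ θ g - θ g‖) := by
  have hθ' := fin_tr (α := α) h⁻¹ hθ
  have h1 : star (op π h) * Qf u π θ θ * op π h - Qf u π θ θ =
      Qf u π (fun g => tr α h⁻¹ θ g - θ g) (tr α h⁻¹ θ) +
        Qf u π θ (fun g => tr α h⁻¹ θ g - θ g) := by
    rw [Qf_tr hc h hθ, Qf_sub_left hθ' hθ, Qf_sub_right hθ' hθ]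
    abel
  rw [h1]
  refine (norm_add_le _ _).trans ?_
  have e1 := Qf_norm (u := u) (π := π) hd (fin_sub hθ' hθ) hθ'
  have e2 := Qf_norm (u := u) (π := π) hd hθ (fin_sub hθ' hθ)
  rw [norm_Nf_tr _ hθ] at e1
  calc _ ≤ d ^ 2 * (√‖Nf fun g => tr α h⁻¹ θ g - θ g‖ * √‖Nf θ‖) +
        d ^ 2 * (√‖Nf θ‖ * √‖Nf fun g => tr α h⁻¹ θ g - θ g‖) := add_le_add e1 e2
    _ = _ := by ring

/-- the form of `Q(θ, θ)` -/
lemma Qf_form {θ : G → A} (hθ : θ.support.Finite) (ξ : H) :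
    inner ℂ ξ (Qf u π θ θ ξ) = ((∑ g ∈ hθ.toFinset, ‖(op π g⁻¹ * u (θ g)) ξ‖ ^ 2 : ℝ) : ℂ) := by
  have hxT : ∀ g ∉ hθ.toFinset, θ g = 0 := fun g hg => by simpa using hg
  rw [Qf_eq (T := hθ.toFinset) (fun g hg => Or.inl (hxT g hg)), ContinuousLinearMap.sum_apply,
    inner_sum, Complex.ofReal_sum]
  refine Finset.sum_congr rfl fun g _ => ?_
  rw [ContinuousLinearMap.mul_apply, ContinuousLinearMap.star_eq_adjoint,
    ContinuousLinearMap.adjoint_inner_right, inner_self_eq_norm_sq_to_K, Complex.ofReal_pow]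
  rfl

lemma Qf_upper {d : ℝ} (hd : ∀ g, ‖op π g‖ ≤ d) {θ : G → A} (hθ : θ.support.Finite) (ξ : H) :
    (inner ℂ ξ (Qf u π θ θ ξ)).re ≤ d ^ 2 * (‖Nf θ‖ * ‖ξ‖ ^ 2) := by
  rw [Qf_form hθ, Complex.ofReal_re]
  exact sum_V_le hd (fun g hg => by simpa using hg) ξ

lemma Qf_lower {d : ℝ} (hd : ∀ g, ‖op π g‖ ≤ d) {θ : G → A} (hθ : θ.support.Finite) (ξ : H) :
    (1 - ‖Nf θ - 1‖) * ‖ξ‖ ^ 2 ≤ d ^ 2 * (inner ℂ ξ (Qf u π θ θ ξ)).re := by
  have hd0 : 0 ≤ d := (norm_nonneg _).trans (hd 1)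
  rw [Qf_form hθ, Complex.ofReal_re, Finset.mul_sum]
  have h1 : ∑ g ∈ hθ.toFinset, ‖u (θ g) ξ‖ ^ 2 ≤
      ∑ g ∈ hθ.toFinset, d ^ 2 * ‖(op π g⁻¹ * u (θ g)) ξ‖ ^ 2 := by
    refine Finset.sum_le_sum fun g _ => ?_
    rw [← mul_pow]
    gcongr
    have e : u (θ g) ξ = op π g ((op π g⁻¹ * u (θ g)) ξ) := by
      rw [← ContinuousLinearMap.mul_apply, ← mul_assoc, op_mul_inv, one_mul]
    rw [e]
    exact ((op π g).le_opNorm _).trans (by gcongr; exact hd g)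
  refine le_trans ?_ h1
  rw [sum_sq, ← Nf_eq (fun g hg => by simpa using hg)]
  have h2 : inner ℂ ξ (u (Nf θ) ξ) = inner ℂ ξ ξ + inner ℂ ξ (u (Nf θ - 1) ξ) := by
    rw [map_sub, map_one, ContinuousLinearMap.sub_apply, ContinuousLinearMap.one_apply,
      inner_sub_right]
    ring
  rw [h2, Complex.add_re]
  have h3 : (inner ℂ ξ ξ).re = ‖ξ‖ ^ 2 := by
    rw [inner_self_eq_norm_sq_to_K]
    norm_cast
  have h4 : -(‖Nf θ - 1‖ * ‖ξ‖ ^ 2) ≤ (inner ℂ ξ (u (Nf θ - 1) ξ)).re := by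
    have := Complex.abs_re_le_norm (inner ℂ ξ (u (Nf θ - 1) ξ))
    have h5 : ‖inner ℂ ξ (u (Nf θ - 1) ξ)‖ ≤ ‖Nf θ - 1‖ * ‖ξ‖ ^ 2 := by
      calc _ ≤ ‖ξ‖ * ‖u (Nf θ - 1) ξ‖ := norm_inner_le_norm _ _
        _ ≤ ‖ξ‖ * (‖Nf θ - 1‖ * ‖ξ‖) := by
            gcongr
            exact ((u (Nf θ - 1)).le_opNorm ξ).trans (by gcongr; exact norm_u_le u _)
        _ = _ := by ring
    have h6 := neg_abs_le (inner ℂ ξ (u (Nf θ - 1) ξ)).re
    linarith
  rw [h3]
  linarith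

end Pool.Agent.Y324.CV
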